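import Mathlib

set_option autoImplicit false

/-!
A Helly type lemma for families of convex sets which need not be closed: if `Q` is compact and
`B x` (`x ∈ Q`) are convex subsets of a bounded subset of a finite-dimensional space such that
`{x | y ∈ B x}` is open for every `y`, and any finitely many of the `B x` have a common point, then
all of them have a common point.
-/

namespace Q137.Star

open Metric Set Module

universe u v

lemma exists_functional {V : Type u} [NormedAddCommGroup V] [NormedSpace ℝ V]
    [FiniteDimensional ℝ V] {S : Set V} (hS : Convex ℝ S) (hne : S.Nonempty)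
    (hint : interior S = ∅) : ∃ (h : V →L[ℝ] ℝ) (c : ℝ), h ≠ 0 ∧ ∀ x ∈ S, h x = c := by
  have h1 : affineSpan ℝ S ≠ ⊤ := by
    intro h
    rw [← hS.interior_nonempty_iff_affineSpan_eq_top, hint] at h
    exact Set.not_nonempty_empty h
  obtain ⟨p, hp⟩ := hne
  have hpS : p ∈ affineSpan ℝ S := subset_affineSpan ℝ S hp
  have h2 : (affineSpan ℝ S).direction ≠ ⊤ := by
    intro h
    exact h1 ((AffineSubspace.direction_eq_top_iff_of_nonempty ⟨p, hpS⟩).1 h)
  obtain ⟨f, hf0, hf⟩ := Submodule.exists_le_ker_of_lt_top _ (lt_top_iff_ne_top.2 h2)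
  refine ⟨LinearMap.toContinuousLinearMap f, f p, ?_, ?_⟩
  · intro h
    apply hf0
    ext x
    have := congrArg (fun g : V →L[ℝ] ℝ => g x) h
    simpa using this
  · intro x hx
    have h3 : x - p ∈ (affineSpan ℝ S).direction := by
      have := AffineSubspace.vsub_mem_direction (subset_affineSpan ℝ S hx) hpS
      simpa using this
    have h4 := hf h3
    rw [LinearMap.mem_ker, map_sub, sub_eq_zero] at h4
    simpa using h4

lemma exists_ne_of_interior {V : Type u} [NormedAddCommGroup V] [NormedSpace ℝ V]
    {S : Set V} (hS : (interior S).Nonempty) {h : V →L[ℝ] ℝ} (hh : h ≠ 0) (c : ℝ) :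
    ∃ y ∈ S, h y ≠ c := by
  obtain ⟨y, hy⟩ := hS
  by_cases hyc : h y = c
  · obtain ⟨v, hv⟩ : ∃ v, h v ≠ 0 := by
      by_contra hcon
      push Not at hcon
      exact hh (by ext v; simpa using hcon v)
    have hcont : Continuous fun s : ℝ => y + s • v := by fun_prop
    have h1 : ∀ᶠ s in nhdsWithin (0 : ℝ) (Ioi 0), y + s • v ∈ interior S := by
      have h0 : (fun s : ℝ => y + s • v) 0 ∈ interior S := by simpa using hy
      have := hcont.continuousAt (x := (0 : ℝ)) (isOpen_interior.mem_nhds h0)
      exact nhdsWithin_le_nhds this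
    obtain ⟨s, hs, hs0⟩ := (h1.and self_mem_nhdsWithin).exists
    refine ⟨y + s • v, interior_subset hs, ?_⟩
    simp only [map_add, map_smul, smul_eq_mul, hyc]
    intro h2
    have : s * h v = 0 := by linarith
    rcases mul_eq_zero.1 this with h3 | h3
    · rw [h3] at hs0; exact lt_irrefl _ hs0
    · exact hv h3
  · exact ⟨y, interior_subset hy, hyc⟩

lemma exists_tuple {Q : Type v} [Nonempty Q] (I : Finset Q) (m : ℕ) (hI : I.card ≤ m) :
    ∃ q : Fin m → Q, ∀ x ∈ I, ∃ i, q i = x := by
  classical
  refine ⟨fun i => if h : (i : ℕ) < I.card then (I.equivFin.symm ⟨i, h⟩ : Q)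
    else Classical.arbitrary Q, fun x hx => ?_⟩
  refine ⟨⟨I.equivFin ⟨x, hx⟩, (I.equivFin ⟨x, hx⟩).2.trans_le hI⟩, ?_⟩
  simp

theorem common_point (n : ℕ) : ∀ (V : Type u) [NormedAddCommGroup V] [NormedSpace ℝ V]
    [FiniteDimensional ℝ V], finrank ℝ V = n → ∀ (Q : Type v) [TopologicalSpace Q]
    [CompactSpace Q] [Nonempty Q] (B : Q → Set V), (∀ x, Convex ℝ (B x)) →
    Bornology.IsBounded (⋃ x, B x) → (∀ y, IsOpen {x | y ∈ B x}) →
    (∀ F : Finset Q, (⋂ x ∈ F, B x).Nonempty) → (⋂ x, B x).Nonempty := by
  classical
  induction n using Nat.strong_induction_on with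
  | _ n ih =>
  intro V _ _ _ hV Q _ _ _ B hconv hbdd hopen hfin
  by_cases hcase : ∃ F : Finset Q, interior (⋂ x ∈ F, B x) = ∅
  · obtain ⟨F, hF⟩ := hcase
    set C : Set V := ⋂ x ∈ F, B x with hC
    have hCc : Convex ℝ C := convex_iInter₂ fun x _ => hconv x
    obtain ⟨h, c, hh, hc⟩ := exists_functional hCc (hfin F) hF
    obtain ⟨p, hp⟩ := hfin F
    set W : Submodule ℝ V := LinearMap.ker (h : V →ₗ[ℝ] ℝ) with hW
    have hWlt : finrank ℝ W < n := by
      rw [← hV]
      apply Submodule.finrank_lt
      intro h1
      rw [hW, LinearMap.ker_eq_top] at h1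
      apply hh
      ext x
      have := congrArg (fun g : V →ₗ[ℝ] ℝ => g x) h1
      simpa using this
    set B' : Q → Set W := fun x => {w : W | p + (w : V) ∈ B x ∩ C} with hB'
    have hb : Bornology.IsBounded (⋃ x, B' x) := by
      obtain ⟨R, hR⟩ := hbdd.subset_closedBall p
      rw [Metric.isBounded_iff_subset_closedBall (0 : W)]
      refine ⟨R, ?_⟩
      intro w hw
      obtain ⟨x, hx⟩ := mem_iUnion.1 hw
      have h1 : p + (w : V) ∈ closedBall p R := hR (mem_iUnion.2 ⟨x, hx.1⟩)
      rw [mem_closedBall_iff_norm] at h1 ⊢
      simpa using h1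
    obtain ⟨w, hw⟩ := ih _ hWlt W rfl Q B' (by
        intro x a ha b hb' s t hs ht hst
        have h1 := ((hconv x).inter hCc) ha hb' hs ht hst
        change p + ((s • a + t • b : W) : V) ∈ B x ∩ C
        have h2 : p + ((s • a + t • b : W) : V) = s • (p + (a : V)) + t • (p + (b : V)) := by
          have : s • p + t • p = p := by rw [← add_smul, hst, one_smul]
          push_cast
          calc p + (s • (a : V) + t • (b : V)) = (s • p + t • p) + (s • (a : V) + t • (b : V)) := by
                rw [this]
            _ = _ := by module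
        rw [h2]
        exact h1) hb (by
        intro w
        by_cases hwC : p + (w : V) ∈ C
        · have : {x | w ∈ B' x} = {x | p + (w : V) ∈ B x} := by
            ext x
            exact ⟨fun h => h.1, fun h => ⟨h, hwC⟩⟩
          rw [this]
          exact hopen _
        · have : {x | w ∈ B' x} = ∅ := by
            ext x
            exact ⟨fun h => (hwC h.2).elim, fun h => h.elim⟩
          rw [this]
          exact isOpen_empty) (by
        intro F'
        obtain ⟨y, hy⟩ := hfin (F ∪ F')
        have hyC : y ∈ C := by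
          rw [hC]
          simp only [mem_iInter] at hy ⊢
          exact fun x hx => hy x (Finset.mem_union_left _ hx)
        have hker : y - p ∈ W := by
          rw [hW, LinearMap.mem_ker]
          simp [hc y hyC, hc p hp]
        refine ⟨⟨y - p, hker⟩, ?_⟩
        simp only [mem_iInter] at hy ⊢
        intro x hx
        change p + (y - p) ∈ B x ∩ C
        rw [add_sub_cancel]
        exact ⟨hy x (Finset.mem_union_right _ hx), hyC⟩)
    exact ⟨p + (w : V), mem_iInter.2 fun x => ((mem_iInter.1 hw) x).1⟩
  · push Not at hcase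
    have hint : ∀ F : Finset Q, (interior (⋂ x ∈ F, B x)).Nonempty := fun F =>
      hcase F
    set Z : Set V := ⋂ x, closure (B x) with hZ
    have hcomp : ∀ x, IsCompact (closure (B x)) := fun x =>
      (hbdd.subset (subset_iUnion B x)).isCompact_closure
    have hZc : Convex ℝ Z := convex_iInter fun x => (hconv x).closure
    have hZne : Z.Nonempty := by
      refine Convex.helly_theorem_compact' (𝕜 := ℝ) (fun x => (hconv x).closure) hcomp ?_
      intro I _
      obtain ⟨y, hy⟩ := hfin I
      exact ⟨y, by
        simp only [mem_iInter] at hy ⊢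
        exact fun x hx => subset_closure (hy x hx)⟩
    have hZint : (interior Z).Nonempty := by
      by_contra hempty
      rw [Set.not_nonempty_iff_eq_empty] at hempty
      obtain ⟨h, c, hh, hc⟩ := exists_functional hZc hZne hempty
      set m := (n + 1) + (n + 1) with hm
      -- uniform distance
      have hunif : ∃ δ > 0, ∀ q : Fin m → Q, ∃ y, (∀ i, y ∈ B (q i)) ∧ δ ≤ |h y - c| := by
        have hcov : (univ : Set (Fin m → Q)) ⊆ ⋃ y : {y : V // h y ≠ c},
            {q | ∀ i, (y : V) ∈ B (q i)} := by
          intro q _
          obtain ⟨y, hy, hyc⟩ := exists_ne_of_interior (hint (Finset.univ.image q)) hh c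
          rw [mem_iUnion]
          refine ⟨⟨y, hyc⟩, fun i => ?_⟩
          simp only [mem_iInter] at hy
          exact hy (q i) (Finset.mem_image_of_mem _ (Finset.mem_univ i))
        obtain ⟨t, ht⟩ := isCompact_univ.elim_finite_subcover _ (fun y : {y : V // h y ≠ c} => by
          have : {q : Fin m → Q | ∀ i, (y : V) ∈ B (q i)} =
              ⋂ i, (fun q : Fin m → Q => q i) ⁻¹' {x | (y : V) ∈ B x} := by
            ext q; simp
          rw [this]
          exact isOpen_iInter_of_finite fun i => (hopen y).preimage (continuous_apply i)) hcov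
        have htne : t.Nonempty := by
          by_contra hte
          rw [Finset.not_nonempty_iff_eq_empty] at hte
          have := ht (mem_univ (fun _ => Classical.arbitrary Q))
          simp [hte] at this
        obtain ⟨y0, hy0, hmin⟩ := t.exists_min_image (fun y => |h (y : V) - c|) htne
        refine ⟨|h (y0 : V) - c|, abs_pos.2 (sub_ne_zero.2 y0.2), fun q => ?_⟩
        have := ht (mem_univ q)
        rw [mem_iUnion₂] at this
        obtain ⟨y, hyt, hy⟩ := this
        exact ⟨y, hy, hmin y hyt⟩
      obtain ⟨δ, hδ, hq⟩ := hunif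
      have hplus : ∃ I : Finset Q, I.card ≤ n + 1 ∧
          ¬ (⋂ x ∈ I, (closure (B x) ∩ {y | c + δ ≤ h y})).Nonempty := by
        by_contra hcon
        push Not at hcon
        obtain ⟨y, hy⟩ := Convex.helly_theorem_compact' (𝕜 := ℝ)
          (F := fun x => closure (B x) ∩ {y | c + δ ≤ h y})
          (fun x => (hconv x).closure.inter (convex_halfSpace_ge h.isLinear _))
          (fun x => (hcomp x).inter_right (isClosed_le continuous_const h.continuous))
          (fun I hI => by
            rw [hV] at hI
            exact hcon I hI)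
        rw [mem_iInter] at hy
        have h1 : y ∈ Z := mem_iInter.2 fun x => (hy x).1
        have h2 : c + δ ≤ h y := (hy (Classical.arbitrary Q)).2
        rw [hc y h1] at h2
        linarith
      have hminus : ∃ I : Finset Q, I.card ≤ n + 1 ∧
          ¬ (⋂ x ∈ I, (closure (B x) ∩ {y | h y ≤ c - δ})).Nonempty := by
        by_contra hcon
        push Not at hcon
        obtain ⟨y, hy⟩ := Convex.helly_theorem_compact' (𝕜 := ℝ)
          (F := fun x => closure (B x) ∩ {y | h y ≤ c - δ})
          (fun x => (hconv x).closure.inter (convex_halfSpace_le h.isLinear _))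
          (fun x => (hcomp x).inter_right (isClosed_le h.continuous continuous_const))
          (fun I hI => by
            rw [hV] at hI
            exact hcon I hI)
        rw [mem_iInter] at hy
        have h1 : y ∈ Z := mem_iInter.2 fun x => (hy x).1
        have h2 : h y ≤ c - δ := (hy (Classical.arbitrary Q)).2
        rw [hc y h1] at h2
        linarith
      obtain ⟨I, hI, hIe⟩ := hplus
      obtain ⟨I', hI', hIe'⟩ := hminus
      obtain ⟨q, hqI⟩ := exists_tuple (I ∪ I') m ((Finset.card_union_le _ _).trans (by omega))
      obtain ⟨y, hy, hyc⟩ := hq q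
      have hyI : ∀ x ∈ I ∪ I', y ∈ B x := by
        intro x hx
        obtain ⟨i, rfl⟩ := hqI x hx
        exact hy i
      rcases le_abs'.1 hyc with h1 | h1
      · apply hIe'
        refine ⟨y, ?_⟩
        simp only [mem_iInter]
        intro x hx
        exact ⟨subset_closure (hyI x (Finset.mem_union_right _ hx)), by
          change h y ≤ c - δ; linarith⟩
      · apply hIe
        refine ⟨y, ?_⟩
        simp only [mem_iInter]
        intro x hx
        exact ⟨subset_closure (hyI x (Finset.mem_union_left _ hx)), by
          change c + δ ≤ h y; linarith⟩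
    obtain ⟨z, hz⟩ := hZint
    refine ⟨z, mem_iInter.2 fun x => ?_⟩
    have h1 : z ∈ interior (closure (B x)) := interior_mono (iInter_subset _ x) hz
    have h2 : (interior (B x)).Nonempty := by
      have := hint {x}
      simpa using this
    rw [(hconv x).interior_closure_eq_interior_of_nonempty_interior h2] at h1
    exact interior_subset h1

end Q137.Star
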