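import Mathlib

set_option autoImplicit false

/-!
Let `E` be compact and connected and suppose that every point of `E` is either a point of local
convexity of `E` or has a neighbourhood in `E` which is closed under small homotheties towards a
fixed point `z`.  Then a local maximum on `E` of a continuous linear functional `f` with value
smaller than `f z` is a global maximum.  It follows that `E` is starshaped at `z` if `z` lies in the
convex hull of `E`.
-/

namespace Q137.Star

open Metric Set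

variable {V : Type*} [NormedAddCommGroup V] [NormedSpace ℝ V]

/-- `E` is locally convex at `p`. -/
def LC (E : Set V) (p : V) : Prop := ∃ r > 0, Convex ℝ (ball p r ∩ E)

/-- near `p` the set `E` is closed under small homotheties towards `z`. -/
def Slide (E : Set V) (z p : V) : Prop :=
  ∃ r > 0, ∃ ε > 0, ∀ w ∈ ball p r ∩ E, ∀ s : ℝ, 0 ≤ s → s ≤ ε → w + s • (z - w) ∈ E

/-- superlevel set -/
def Vt (E : Set V) (f : V →L[ℝ] ℝ) (t : ℝ) : Set V := {w | w ∈ E ∧ t < f w}

/-- local joinability -/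
def J (E : Set V) (f : V →L[ℝ] ℝ) (t : ℝ) (p : V) : Prop :=
  ∃ ρ > 0, ∀ w ∈ ball p ρ ∩ E, ∀ w' ∈ ball p ρ ∩ E, t < f w → t < f w' → JoinedIn (Vt E f t) w w'

lemma joinedIn_segment {E : Set V} {f : V →L[ℝ] ℝ} {t : ℝ} {w w' : V}
    (h : segment ℝ w w' ⊆ E) (hw : t < f w) (hw' : t < f w') : JoinedIn (Vt E f t) w w' := by
  refine JoinedIn.of_segment_subset ?_
  intro x hx
  refine ⟨h hx, ?_⟩
  obtain ⟨a, b, ha, hb, hab, rfl⟩ := hx
  simp only [map_add, map_smul, smul_eq_mul]
  rcases ha.eq_or_lt with rfl | ha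
  · simp only [zero_add] at hab; subst hab; simpa using hw'
  · have h1 : t = a * t + b * t := by rw [← add_mul, hab, one_mul]
    have h2 := mul_lt_mul_of_pos_left hw ha
    have h3 := mul_le_mul_of_nonneg_left hw'.le hb
    linarith

/-- an `Icc` argument: if the set of parameters is closed and can always be continued -/
lemma segment_of_continue {E : Set V} (hE : IsClosed E) {w z : V} (hw : w ∈ E)
    (h : ∀ s : ℝ, 0 ≤ s → s < 1 → w + s • (z - w) ∈ E → ∀ y > s, ∃ s', s < s' ∧ s' ≤ y ∧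
      w + s' • (z - w) ∈ E) : segment ℝ w z ⊆ E := by
  have hcont : Continuous fun s : ℝ => w + s • (z - w) := by fun_prop
  have key : Icc (0 : ℝ) 1 ⊆ {s | w + s • (z - w) ∈ E} := by
    refine IsClosed.Icc_subset_of_forall_exists_gt ?_ ?_ ?_
    · exact (hE.preimage hcont).inter isClosed_Icc
    · simpa using hw
    · intro x hx y hy
      obtain ⟨s', h1, h2, h3⟩ := h x hx.2.1 hx.2.2 hx.1 y hy
      exact ⟨s', h3, h1, h2⟩
  rw [segment_eq_image']
  rintro _ ⟨θ, hθ, rfl⟩
  exact key hθ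

lemma slide_seg {E : Set V} {z w : V} {ε : ℝ} (hε : 0 ≤ ε)
    (h : ∀ s : ℝ, 0 ≤ s → s ≤ ε → w + s • (z - w) ∈ E) : segment ℝ w (w + ε • (z - w)) ⊆ E := by
  rw [segment_eq_image']
  rintro _ ⟨θ, hθ, rfl⟩
  have := h (θ * ε) (mul_nonneg hθ.1 hε) (by nlinarith [hθ.2])
  simpa [smul_smul] using this

theorem J_all {E : Set V} (hE : IsCompact E) {z : V} {f : V →L[ℝ] ℝ} {t : ℝ} (ht : t < f z)
    (hgood : ∀ p ∈ E, LC E p ∨ Slide E z p) {p : V} (hp : p ∈ E) (hpt : t ≤ f p) : J E f t p := by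
  classical
  by_contra hcon
  set Bad : Set V := {q | q ∈ E ∧ t ≤ f q ∧ ¬ J E f t q} with hBad
  have hclosed : IsClosed Bad := by
    have h1 : Bad = (E ∩ {q | t ≤ f q}) ∩ {q | J E f t q}ᶜ := by
      ext q
      exact ⟨fun h => ⟨⟨h.1, h.2.1⟩, h.2.2⟩, fun h => ⟨h.1.1, h.1.2, h.2⟩⟩
    rw [h1]
    refine (hE.isClosed.inter (isClosed_le continuous_const f.continuous)).inter ?_
    rw [isClosed_compl_iff, Metric.isOpen_iff]
    rintro q ⟨ρ, hρ, h⟩
    refine ⟨ρ / 2, by positivity, fun q' hq' => ⟨ρ / 2, by positivity, ?_⟩⟩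
    have hsub : ball q' (ρ / 2) ⊆ ball q ρ := by
      apply ball_subset_ball'
      rw [mem_ball] at hq'
      linarith
    intro w hw w' hw'
    exact h w ⟨hsub hw.1, hw.2⟩ w' ⟨hsub hw'.1, hw'.2⟩
  have hcomp : IsCompact Bad := hE.of_isClosed_subset hclosed fun q hq => hq.1
  obtain ⟨q, hq, hmin⟩ := hcomp.exists_isMinOn ⟨p, hp, hpt, hcon⟩
    (f := fun q => dist q z) (by fun_prop)
  obtain ⟨hqE, hqt, hqJ⟩ := hq
  apply hqJ
  rcases hgood q hqE with ⟨r, hr, hconv⟩ | ⟨r, hr, ε, hε, hs⟩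
  · refine ⟨r, hr, fun w hw w' hw' h1 h2 => joinedIn_segment ?_ h1 h2⟩
    exact (hconv.segment_subset hw hw').trans inter_subset_right
  · by_cases hqz : q = z
    · subst hqz
      have hseg : ∀ w ∈ ball q r ∩ E, segment ℝ w q ⊆ E := by
        intro w hw
        refine segment_of_continue hE.isClosed hw.2 ?_
        intro s hs0 hs1 hsE y hy
        have hball : w + s • (q - w) ∈ ball q r := by
          have : w + s • (q - w) - q = (1 - s) • (w - q) := by module
          rw [mem_ball_iff_norm, this, norm_smul, Real.norm_of_nonneg (by linarith)]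
          have := mem_ball_iff_norm.1 hw.1
          nlinarith [norm_nonneg (w - q)]
        -- slide a little
        set η := min (min ε 1) (y - s) with hη
        have hη0 : 0 < η := by
          apply lt_min (lt_min hε one_pos); linarith [show s < y from hy]
        refine ⟨s + η * (1 - s), ?_, ?_, ?_⟩
        · nlinarith
        · have h1 : η ≤ y - s := min_le_right _ _
          nlinarith
        · have := hs (w + s • (q - w)) ⟨hball, hsE⟩ η hη0.le ((min_le_left _ _).trans (min_le_left _ _))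
          convert this using 1
          module
      refine ⟨r, hr, fun w hw w' hw' h1 h2 => ?_⟩
      exact (joinedIn_segment (hseg w hw) h1 ht).trans (joinedIn_segment (hseg w' hw') h2 ht).symm
    · -- slide
      set δ := min ε 1 with hδ
      have hδ0 : 0 < δ := lt_min hε one_pos
      have hδ1 : δ ≤ 1 := min_le_right _ _
      have hδε : δ ≤ ε := min_le_left _ _
      have hslide : ∀ w ∈ ball q r ∩ E, ∀ s : ℝ, 0 ≤ s → s ≤ δ → w + s • (z - w) ∈ E :=
        fun w hw s h0 h1 => hs w hw s h0 (h1.trans hδε)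
      set q' := q + δ • (z - q) with hq'
      have hq'E : q' ∈ E := hslide q ⟨mem_ball_self hr, hqE⟩ δ hδ0.le le_rfl
      have hfval : ∀ w, t < f w → t < f (w + δ • (z - w)) := by
        intro w hw
        simp only [map_add, map_smul, map_sub, smul_eq_mul]
        nlinarith [mul_pos hδ0 (sub_pos.2 ht)]
      have hq't : t ≤ f q' := by
        simp only [hq', map_add, map_smul, map_sub, smul_eq_mul]
        nlinarith [mul_pos hδ0 (sub_pos.2 ht)]
      have hdist : dist q' z < dist q z := by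
        have h1 : q' - z = (1 - δ) • (q - z) := by rw [hq']; module
        rw [dist_eq_norm, dist_eq_norm, h1, norm_smul, Real.norm_of_nonneg (by linarith)]
        have : 0 < ‖q - z‖ := by rw [norm_pos_iff, sub_ne_zero]; exact hqz
        nlinarith
      have hJ' : J E f t q' := by
        by_contra hJ'
        exact absurd (hmin ⟨hq'E, hq't, hJ'⟩) (not_le.2 hdist)
      obtain ⟨ρ, hρ, hρJ⟩ := hJ'
      refine ⟨min r ρ, lt_min hr hρ, ?_⟩
      intro w hw w' hw' h1 h2
      have hb : ∀ w ∈ ball q (min r ρ) ∩ E, w + δ • (z - w) ∈ ball q' ρ ∩ E := by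
        intro w hw
        have hwr : w ∈ ball q r ∩ E := ⟨ball_subset_ball (min_le_left _ _) hw.1, hw.2⟩
        refine ⟨?_, hslide w hwr δ hδ0.le le_rfl⟩
        have h1 : w + δ • (z - w) - q' = (1 - δ) • (w - q) := by rw [hq']; module
        rw [mem_ball_iff_norm, h1, norm_smul, Real.norm_of_nonneg (by linarith)]
        have h3 : ‖w - q‖ < ρ := by
          have := mem_ball_iff_norm.1 hw.1
          exact this.trans_le (min_le_right _ _)
        nlinarith [norm_nonneg (w - q)]
      have hj : ∀ w ∈ ball q (min r ρ) ∩ E, t < f w → JoinedIn (Vt E f t) w (w + δ • (z - w)) := by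
        intro w hw h1
        have hwr : w ∈ ball q r ∩ E := ⟨ball_subset_ball (min_le_left _ _) hw.1, hw.2⟩
        exact joinedIn_segment (slide_seg hδ0.le (hslide w hwr)) h1 (hfval w h1)
      exact ((hj w hw h1).trans (hρJ _ (hb w hw) _ (hb w' hw') (hfval w h1) (hfval w' h2))).trans
        (hj w' hw' h2).symm

/-- the set of local maxima with value `t` -/
def U (E : Set V) (f : V →L[ℝ] ℝ) (t : ℝ) : Set V :=
  {p | p ∈ E ∧ f p = t ∧ ∃ r > 0, ∀ w ∈ ball p r ∩ E, f w ≤ t}

lemma U_away {E : Set V} {z : V} {f : V →L[ℝ] ℝ} {t : ℝ} (ht : t < f z)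
    (hgood : ∀ p ∈ E, LC E p ∨ Slide E z p) {p : V} (hp : p ∈ E) (hpt : t ≤ f p)
    (hpU : p ∉ U E f t) : ∃ ρ > 0, ∀ q ∈ ball p ρ, q ∉ U E f t := by
  rcases hpt.eq_or_lt with heq | hlt
  · rcases hgood p hp with ⟨r, hr, hconv⟩ | ⟨r, hr, ε, hε, hs⟩
    · refine ⟨r, hr, fun q hq hqU => ?_⟩
      obtain ⟨hqE, hqt, r', hr', hq2⟩ := hqU
      -- p is not a local max, so there is c
      have : ∃ c ∈ ball p r ∩ E, t < f c := by
        by_contra hcon
        push Not at hcon
        exact hpU ⟨hp, heq.symm, r, hr, hcon⟩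
      obtain ⟨c, hc, hct⟩ := this
      -- points on [q, c] near q
      have hcont : Continuous fun s : ℝ => q + s • (c - q) := by fun_prop
      have : ∀ᶠ s in nhdsWithin (0 : ℝ) (Ioi 0), q + s • (c - q) ∈ ball q r' := by
        have h0 : (fun s : ℝ => q + s • (c - q)) 0 ∈ ball q r' := by simpa using hr'
        have := hcont.continuousAt (x := (0 : ℝ)) (isOpen_ball.mem_nhds h0)
        exact nhdsWithin_le_nhds this
      have h2 : ∀ᶠ s in nhdsWithin (0 : ℝ) (Ioi 0), s ∈ Ioc (0 : ℝ) 1 :=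
        Ioc_mem_nhdsGT one_pos
      obtain ⟨s, hs1, hs2⟩ := (this.and h2).exists
      have hmem : q + s • (c - q) ∈ ball p r ∩ E := by
        have h3 : q + s • (c - q) = (1 - s) • q + s • c := by module
        rw [h3]
        exact hconv ⟨hq, hqE⟩ hc (by linarith [hs2.2]) hs2.1.le (by ring)
      have := hq2 _ ⟨hs1, hmem.2⟩
      simp only [map_add, map_smul, map_sub, smul_eq_mul, hqt] at this
      nlinarith [mul_pos hs2.1 (sub_pos.2 hct)]
    · refine ⟨r, hr, fun q hq hqU => ?_⟩
      obtain ⟨hqE, hqt, r', hr', hq2⟩ := hqU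
      have hcont : Continuous fun s : ℝ => q + s • (z - q) := by fun_prop
      have : ∀ᶠ s in nhdsWithin (0 : ℝ) (Ioi 0), q + s • (z - q) ∈ ball q r' := by
        have h0 : (fun s : ℝ => q + s • (z - q)) 0 ∈ ball q r' := by simpa using hr'
        have := hcont.continuousAt (x := (0 : ℝ)) (isOpen_ball.mem_nhds h0)
        exact nhdsWithin_le_nhds this
      have h2 : ∀ᶠ s in nhdsWithin (0 : ℝ) (Ioi 0), s ∈ Ioc (0 : ℝ) ε :=
        Ioc_mem_nhdsGT hε
      obtain ⟨s, hs1, hs2⟩ := (this.and h2).exists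
      have hmem := hs q ⟨hq, hqE⟩ s hs2.1.le hs2.2
      have := hq2 _ ⟨hs1, hmem⟩
      simp only [map_add, map_smul, map_sub, smul_eq_mul, hqt] at this
      nlinarith [mul_pos hs2.1 (sub_pos.2 ht)]
  · have h1 : {q | t < f q} ∈ nhds p := (isOpen_lt continuous_const f.continuous).mem_nhds hlt
    obtain ⟨ρ, hρ, h⟩ := Metric.mem_nhds_iff.1 h1
    refine ⟨ρ, hρ, fun q hq hqU => ?_⟩
    have : t < f q := h hq
    rw [hqU.2.1] at this
    exact lt_irrefl _ this

lemma U_closed {E : Set V} (hE : IsClosed E) {z : V} {f : V →L[ℝ] ℝ} {t : ℝ} (ht : t < f z)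
    (hgood : ∀ p ∈ E, LC E p ∨ Slide E z p) : IsClosed (U E f t) := by
  rw [← isOpen_compl_iff, Metric.isOpen_iff]
  intro p hp
  by_cases hpE : p ∈ E ∧ t ≤ f p
  · exact U_away ht hgood hpE.1 hpE.2 hp
  · have hcl : IsClosed (E ∩ {q | t ≤ f q}) :=
      hE.inter (isClosed_le continuous_const f.continuous)
    obtain ⟨ρ, hρ, h⟩ := Metric.isOpen_iff.1 hcl.isOpen_compl p hpE
    exact ⟨ρ, hρ, fun q hq hqU => h hq ⟨hqU.1, hqU.2.1.ge⟩⟩

/-- separation of `u` and `c` in the closed superlevel set -/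
def D (E : Set V) (f : V →L[ℝ] ℝ) (u c : V) (t : ℝ) : Prop :=
  ∃ A B : Set V, IsClosed A ∧ IsClosed B ∧ Disjoint A B ∧ A ∪ B = {w | w ∈ E ∧ t ≤ f w} ∧
    u ∈ A ∧ c ∈ B

theorem localMax_global {E : Set V} (hE : IsCompact E) (hconn : IsPreconnected E) {z : V}
    {f : V →L[ℝ] ℝ} (hgood : ∀ p ∈ E, LC E p ∨ Slide E z p) {u : V} (hu : u ∈ E)
    (huz : f u < f z) (hmax : ∃ r > 0, ∀ w ∈ ball u r ∩ E, f w ≤ f u) : ∀ c ∈ E, f c ≤ f u := by
  classical
  intro c hc
  by_contra hcon
  push Not at hcon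
  have hcloset : ∀ t, IsClosed {w | w ∈ E ∧ t ≤ f w} := fun t =>
    hE.isClosed.inter (isClosed_le continuous_const f.continuous)
  have huU : u ∈ U E f (f u) := ⟨hu, rfl, hmax⟩
  -- D at the top
  have htop : D E f u c (f u) := by
    refine ⟨U E f (f u), {w | w ∈ E ∧ f u ≤ f w} \ U E f (f u), U_closed hE.isClosed huz hgood,
      ?_, disjoint_sdiff_right, ?_, huU, ⟨hc, hcon.le⟩, fun h => hcon.ne h.2.1.symm⟩
    · -- closed: the set U is relatively open
      rw [← isOpen_compl_iff, Metric.isOpen_iff]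
      intro p hp
      by_cases hpE : p ∈ {w | w ∈ E ∧ f u ≤ f w}
      · have hpU : p ∈ U E f (f u) := by
          by_contra h
          exact hp ⟨hpE, h⟩
        obtain ⟨-, hpt, r, hr, h⟩ := hpU
        refine ⟨r, hr, fun q hq hq2 => hq2.2 ⟨hq2.1.1, ?_, ?_⟩⟩
        · exact le_antisymm (h q ⟨hq, hq2.1.1⟩) hq2.1.2
        · obtain ⟨r', hr', h'⟩ := Metric.isOpen_iff.1 (isOpen_ball (x := p) (ε := r)) q hq
          exact ⟨r', hr', fun w hw => h w ⟨h' hw.1, hw.2⟩⟩
      · obtain ⟨ρ, hρ, h⟩ := Metric.isOpen_iff.1 (hcloset (f u)).isOpen_compl p hpE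
        exact ⟨ρ, hρ, fun q hq hq2 => h hq hq2.1⟩
    · ext w
      simp only [mem_union, mem_sdiff, mem_ofPred_eq]
      constructor
      · rintro (h | h)
        · exact ⟨h.1, h.2.1.ge⟩
        · exact h.1
      · intro h
        by_cases hw : w ∈ U E f (f u)
        · exact Or.inl hw
        · exact Or.inr ⟨h, hw⟩
  -- failure at the bottom
  obtain ⟨m, hm⟩ : ∃ m, ∀ w ∈ E, m ≤ f w := by
    obtain ⟨q, hq, hmin⟩ := hE.exists_isMinOn ⟨u, hu⟩ f.continuous.continuousOn
    exact ⟨f q, fun w hw => hmin hw⟩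
  have hnot : ∀ A B S : Set V, IsClosed A → IsClosed B → Disjoint A B → IsPreconnected S →
      S ⊆ A ∪ B → ∀ a ∈ S, a ∈ A → ∀ b ∈ S, b ∈ B → False := by
    intro A B S hA hB hAB hS hsub a ha haA b hb hbB
    rw [isPreconnected_closed_iff] at hS
    obtain ⟨x, -, hxA, hxB⟩ := hS A B hA hB hsub ⟨a, ha, haA⟩ ⟨b, hb, hbB⟩
    exact (Set.disjoint_left.1 hAB) hxA hxB
  have hbot : ∀ t ≤ m, ¬ D E f u c t := by
    rintro t ht ⟨A, B, hA, hB, hAB, hU, huA, hcB⟩
    refine hnot A B E hA hB hAB hconn ?_ u hu huA c hc hcB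
    rw [hU]
    exact fun w hw => ⟨hw, ht.trans (hm w hw)⟩
  set S : Set ℝ := {t | t ≤ f u ∧ ¬ D E f u c t} with hS
  have hSne : S.Nonempty := ⟨min m (f u), min_le_right _ _, hbot _ (min_le_left _ _)⟩
  have hSbdd : BddAbove S := ⟨f u, fun t ht => ht.1⟩
  set τ := sSup S with hτ
  have hτu : τ ≤ f u := csSup_le hSne fun t ht => ht.1
  have habove : ∀ t, τ < t → t ≤ f u → D E f u c t := by
    intro t h1 h2
    by_contra h3
    exact absurd (le_csSup hSbdd (show t ∈ S from ⟨h2, h3⟩)) (not_le.2 h1)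
  by_cases hDτ : D E f u c τ
  · -- openness
    obtain ⟨A, B, hA, hB, hAB, hU, huA, hcB⟩ := hDτ
    have hAc : IsCompact A := hE.of_isClosed_subset hA fun w hw =>
      (show w ∈ {w | w ∈ E ∧ τ ≤ f w} from hU ▸ Or.inl hw).1
    have hBc : IsCompact B := hE.of_isClosed_subset hB fun w hw =>
      (show w ∈ {w | w ∈ E ∧ τ ≤ f w} from hU ▸ Or.inr hw).1
    obtain ⟨OA, OB, hOA, hOB, hAO, hBO, hO⟩ := SeparatedNhds.of_isCompact_isCompact hAc hBc hAB
    set R : Set V := E \ (OA ∪ OB) with hR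
    have hRc : IsCompact R := hE.diff (hOA.union hOB)
    have hRlt : ∀ w ∈ R, f w < τ := by
      intro w hw
      by_contra h
      push Not at h
      have : w ∈ A ∪ B := by rw [hU]; exact ⟨hw.1, h⟩
      rcases this with h | h
      · exact hw.2 (Or.inl (hAO h))
      · exact hw.2 (Or.inr (hBO h))
    obtain ⟨η, hη, hηR⟩ : ∃ η < τ, ∀ w ∈ R, f w < η := by
      rcases R.eq_empty_or_nonempty with h | h
      · exact ⟨τ - 1, by linarith, by rw [h]; simp⟩
      · obtain ⟨q, hq, hqm⟩ := hRc.exists_isMaxOn h f.continuous.continuousOn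
        have h1 := hRlt q hq
        refine ⟨(f q + τ) / 2, by linarith, fun w hw => ?_⟩
        have : f w ≤ f q := hqm hw
        linarith
    have hD : ∀ t, η ≤ t → t ≤ τ → D E f u c t := by
      intro t h1 h2
      refine ⟨{w | w ∈ E ∧ t ≤ f w} \ OB, {w | w ∈ E ∧ t ≤ f w} \ OA,
        (hcloset t).sdiff hOB, (hcloset t).sdiff hOA, ?_, ?_, ?_, ?_⟩
      · rw [Set.disjoint_left]
        rintro w ⟨hw1, hw2⟩ ⟨-, hw3⟩
        have : w ∈ R := ⟨hw1.1, fun h => h.elim hw3 hw2⟩
        have := hηR w this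
        linarith [hw1.2]
      · ext w
        simp only [mem_union, mem_sdiff]
        constructor
        · rintro (h | h) <;> exact h.1
        · intro h
          by_cases hw : w ∈ OB
          · exact Or.inr ⟨h, fun h' => (Set.disjoint_left.1 hO) h' hw⟩
          · exact Or.inl ⟨h, hw⟩
      · exact ⟨⟨hu, h2.trans hτu⟩, fun h => (Set.disjoint_left.1 hO) (hAO huA) h⟩
      · exact ⟨⟨hc, (h2.trans hτu).trans hcon.le⟩, fun h => (Set.disjoint_left.1 hO) h (hBO hcB)⟩
    have : τ ≤ η := by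
      apply csSup_le hSne
      intro t ht
      by_contra h
      push Not at h
      rcases le_or_gt t τ with h2 | h2
      · exact ht.2 (hD t h.le h2)
      · exact ht.2 (habove t h2 ht.1)
    linarith
  · -- closedness
    have hτlt : τ < f u := by
      rcases hτu.eq_or_lt with h | h
      · rw [h] at hDτ; exact absurd htop hDτ
      · exact h
    have hτz : τ < f z := hτlt.trans huz
    have hnj : ¬ JoinedIn (Vt E f τ) u c := by
      rintro ⟨γ, hγ⟩
      have hcomp : IsCompact (range γ) := isCompact_range γ.continuous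
      obtain ⟨q, hq, hqm⟩ := hcomp.exists_isMinOn (range_nonempty γ) f.continuous.continuousOn
      obtain ⟨s, rfl⟩ := hq
      set t := min (f (γ s)) (f u) with ht
      have h1 : τ < t := lt_min (hγ s).2 hτlt
      obtain ⟨A, B, hA, hB, hAB, hU, huA, hcB⟩ := habove t h1 (min_le_right _ _)
      refine hnot A B (range γ) hA hB hAB (isPreconnected_range γ.continuous) ?_ u
        ⟨0, γ.source⟩ huA c ⟨1, γ.target⟩ hcB
      rw [hU]
      rintro _ ⟨s', rfl⟩
      exact ⟨(hγ s').1, (min_le_left _ _).trans (hqm ⟨s', rfl⟩)⟩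
    apply hDτ
    set CA : Set V := {w | w ∈ Vt E f τ ∧ JoinedIn (Vt E f τ) u w} with hCA
    set CB : Set V := {w | w ∈ Vt E f τ ∧ ¬ JoinedIn (Vt E f τ) u w} with hCB
    have hcl : ∀ C : Set V, C ⊆ Vt E f τ → closure C ⊆ {w | w ∈ E ∧ τ ≤ f w} := by
      intro C hC
      exact closure_minimal (fun w hw => ⟨(hC hw).1, (hC hw).2.le⟩) (hcloset τ)
    refine ⟨closure CA, closure CB ∪ U E f τ, isClosed_closure,
      isClosed_closure.union (U_closed hE.isClosed hτz hgood), ?_, ?_, ?_, ?_⟩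
    · rw [Set.disjoint_left]
      intro p hpA hpB
      have hp := hcl CA (fun w hw => hw.1) hpA
      rcases hpB with hpB | hpB
      · obtain ⟨ρ, hρ, h⟩ := J_all hE hτz hgood hp.1 hp.2
        obtain ⟨w, hwA, hw⟩ := Metric.mem_closure_iff.1 hpA ρ hρ
        obtain ⟨w', hwB, hw'⟩ := Metric.mem_closure_iff.1 hpB ρ hρ
        rw [dist_comm] at hw hw'
        have := h w ⟨hw, hwA.1.1⟩ w' ⟨hw', hwB.1.1⟩ hwA.1.2 hwB.1.2
        exact hwB.2 (hwA.2.trans this)
      · obtain ⟨-, -, r, hr, h⟩ := hpB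
        obtain ⟨w, hwA, hw⟩ := Metric.mem_closure_iff.1 hpA r hr
        rw [dist_comm] at hw
        have := h w ⟨hw, hwA.1.1⟩
        exact absurd hwA.1.2 (not_lt.2 this)
    · apply Set.Subset.antisymm
      · refine Set.union_subset (hcl CA fun w hw => hw.1)
          (Set.union_subset (hcl CB fun w hw => hw.1) fun p hp => ⟨hp.1, hp.2.1.ge⟩)
      · rintro p ⟨hpE, hpt⟩
        by_cases hpU : p ∈ U E f τ
        · exact Or.inr (Or.inr hpU)
        · have hpcl : p ∈ closure (Vt E f τ) := by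
            rw [Metric.mem_closure_iff]
            intro ε hε
            rcases hpt.eq_or_lt with heq | hlt
            · by_contra hno
              push Not at hno
              apply hpU
              refine ⟨hpE, heq.symm, ε, hε, fun w hw => ?_⟩
              by_contra hlt
              push Not at hlt
              have := hno w ⟨hw.2, hlt⟩
              rw [dist_comm] at this
              exact absurd hw.1 (not_lt.2 this)
            · exact ⟨p, ⟨hpE, hlt⟩, by simpa using hε⟩
          have hV : Vt E f τ = CA ∪ CB := by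
            ext w
            simp only [hCA, hCB, mem_union, mem_ofPred_eq]
            tauto
          rw [hV, closure_union] at hpcl
          rcases hpcl with h | h
          · exact Or.inl h
          · exact Or.inr (Or.inl h)
    · exact subset_closure ⟨⟨hu, hτlt⟩, JoinedIn.refl ⟨hu, hτlt⟩⟩
    · exact Or.inl (subset_closure ⟨⟨hc, hτlt.trans hcon⟩, hnj⟩)

end Q137.Star
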