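import Mathlib
import Pool.Agent.Q137.Star.LocalMax
import Pool.Agent.Q137.Star.Common

set_option autoImplicit false

/-!
Starshapedness from clear visibility of points of local non-convexity, `d + 1` at a time.
-/

namespace Q137.Star

open Metric Set Module

section inner

variable {V : Type*} [NormedAddCommGroup V] [InnerProductSpace ℝ V]

/-- If every point of `E` is a point of local convexity or a point near which `E` can be slid
towards `z`, and `z ∈ conv E`, then `z` sees all of `E`. -/
theorem star_of_good {E : Set V} (hE : IsCompact E) (hconn : IsPreconnected E) {z : V}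
    (hz : z ∈ convexHull ℝ E) (hgood : ∀ p ∈ E, LC E p ∨ Slide E z p) :
    ∀ w ∈ E, segment ℝ w z ⊆ E := by
  intro w hw
  refine segment_of_continue hE.isClosed hw ?_
  intro s hs0 hs1 hsE y hy
  by_contra hcon
  push Not at hcon
  set u := w + s • (z - w) with hu
  have hs1' : 0 < 1 - s := by linarith
  -- small homotheties of `u` towards `z` leave `E`
  have hleave : ∀ σ : ℝ, 0 < σ → σ * (1 - s) ≤ y - s → u + σ • (z - u) ∉ E := by
    intro σ hσ h1 h2
    have h3 := hcon (s + σ * (1 - s)) (by nlinarith) (by linarith)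
    apply h3
    convert h2 using 1
    rw [hu]; module
  rcases hgood u hsE with ⟨r, hr, hconv⟩ | ⟨r, hr, ε, hε, hslide⟩
  · -- supporting functional
    have hcont : Continuous fun σ : ℝ => u + σ • (z - u) := by fun_prop
    have e1 : ∀ᶠ σ in nhdsWithin (0 : ℝ) (Ioi 0), u + σ • (z - u) ∈ ball u (r / 4) := by
      have h0 : (fun σ : ℝ => u + σ • (z - u)) 0 ∈ ball u (r / 4) := by simpa using hr
      have := hcont.continuousAt (x := (0 : ℝ)) (isOpen_ball.mem_nhds h0)
      exact nhdsWithin_le_nhds this
    have e2 : ∀ᶠ σ in nhdsWithin (0 : ℝ) (Ioi 0), σ ∈ Ioc (0 : ℝ) (min 1 (y - s)) :=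
      Ioc_mem_nhdsGT (lt_min one_pos (sub_pos.2 hy))
    obtain ⟨σ, hσ1, hσ0, hσ2⟩ := (e1.and e2).exists
    have hσle1 : σ ≤ 1 := hσ2.trans (min_le_left _ _)
    have hσle2 : σ ≤ y - s := hσ2.trans (min_le_right _ _)
    set p := u + σ • (z - u) with hp
    have hpE : p ∉ E := hleave σ hσ0 (by nlinarith)
    set C : Set V := closedBall u (r / 2) ∩ E with hC
    have hCconv : Convex ℝ C := by
      have : C = closedBall u (r / 2) ∩ (ball u r ∩ E) := by
        ext x
        constructor
        · rintro ⟨h1, h2⟩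
          exact ⟨h1, closedBall_subset_ball (by linarith) h1, h2⟩
        · rintro ⟨h1, h2, h3⟩
          exact ⟨h1, h3⟩
      rw [this]
      exact (convex_closedBall u (r / 2)).inter hconv
    have hCcomp : IsComplete C := (hE.inter_left isClosed_closedBall).isComplete
    have huC : u ∈ C := ⟨mem_closedBall_self (by linarith), hsE⟩
    obtain ⟨c, hcC, hcmin⟩ := exists_norm_eq_iInf_of_complete_convex ⟨u, huC⟩ hCcomp hCconv p
    have hinner := (norm_eq_iInf_iff_real_inner_le_zero hCconv hcC).1 hcmin
    set f : V →L[ℝ] ℝ := innerSL ℝ (p - c) with hf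
    have hfv : ∀ x, f x = inner ℝ (p - c) (x) := fun x => by rw [hf]; rfl
    have hle : ∀ x ∈ C, f x ≤ f c := by
      intro x hx
      have := hinner x hx
      rw [inner_sub_right] at this
      rw [hfv, hfv]; linarith
    have hpc : 0 < inner ℝ (p - c) (p - c) := by
      rw [real_inner_self_eq_norm_sq]
      have : p ≠ c := by rintro rfl; exact hpE hcC.2
      have : 0 < ‖p - c‖ := norm_pos_iff.2 (sub_ne_zero.2 this)
      positivity
    have h1 : 0 < f (z - u) := by
      have h2 : f (p - u) = σ * f (z - u) := by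
        have : p - u = σ • (z - u) := by rw [hp]; module
        rw [this, map_smul, smul_eq_mul]
      have h3 : f (p - u) = inner ℝ (p - c) (p - c) + (f c - f u) := by
        rw [hfv, hfv, hfv, ← inner_sub_right, ← inner_add_right]
        congr 1
        module
      have h4 := hle u huC
      have h5 : 0 < σ * f (z - u) := by rw [← h2, h3]; linarith
      exact (mul_pos_iff_of_pos_left hσ0).1 h5
    have hfcz : f c < f z := by
      have h2 : f z - f c = (1 - σ) * f (z - u) + inner ℝ (p - c) (p - c) := by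
        have : inner ℝ (p - c) (p - c) = f p - f c := by rw [hfv, hfv, ← inner_sub_right]
        rw [this, hp]
        simp only [map_add, map_smul, map_sub, smul_eq_mul]
        ring
      have h3 : 0 ≤ (1 - σ) * f (z - u) := mul_nonneg (by linarith) h1.le
      linarith
    -- `c` is a local maximum
    have hcu : dist c u < r / 2 := by
      have h2 : ‖p - c‖ ≤ ‖p - u‖ := by
        rw [hcmin]
        have hbdd : BddBelow (range fun w : C => ‖p - w‖) :=
          ⟨0, by rintro _ ⟨x, rfl⟩; exact norm_nonneg _⟩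
        exact ciInf_le hbdd ⟨u, huC⟩
      have h3 : ‖p - u‖ < r / 4 := mem_ball_iff_norm.1 hσ1
      calc dist c u ≤ dist c p + dist p u := dist_triangle _ _ _
        _ = ‖p - c‖ + ‖p - u‖ := by rw [dist_comm c p, dist_eq_norm, dist_eq_norm]
        _ < r / 2 := by linarith
    have hloc : ∃ r' > 0, ∀ x ∈ ball c r' ∩ E, f x ≤ f c := by
      refine ⟨r / 2 - dist c u, by linarith, fun x hx => hle x ⟨?_, hx.2⟩⟩
      have := mem_ball.1 hx.1
      rw [mem_closedBall]
      linarith [dist_triangle x c u]
    have hglob := localMax_global hE hconn hgood hcC.2 hfcz hloc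
    have hsub : convexHull ℝ E ⊆ {x | f x ≤ f c} :=
      convexHull_min hglob (convex_halfSpace_le f.isLinear _)
    exact absurd (hsub hz) (not_le.2 hfcz)
  · have hpos : 0 < min ε (y - s) := lt_min hε (sub_pos.2 hy)
    refine hleave (min ε (y - s)) hpos ?_ (hslide u ⟨mem_ball_self hr, hsE⟩ _ hpos.le
      (min_le_left _ _))
    have : min ε (y - s) ≤ y - s := min_le_right _ _
    nlinarith

end inner

section slide

variable {V : Type*} [NormedAddCommGroup V] [NormedSpace ℝ V]

lemma slide_convex (E : Set V) (x : V) : Convex ℝ {y | Slide E y x} := by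
  rintro a ⟨ra, hra, εa, hεa, ha⟩ b ⟨rb, hrb, εb, hεb, hb⟩ l m hl hm hlm
  -- choose the radius and the size of the homothety
  set M := ‖a - x‖ + ra with hM
  have hM0 : 0 < M := by positivity
  refine ⟨min ra (rb / 2), lt_min hra (by positivity),
    min (min (1 / 2) (εa / 2)) (min εb (rb / (4 * M))), by positivity, ?_⟩
  rintro w ⟨hw, hwE⟩ s hs0 hs
  have hs1 : s ≤ 1 / 2 := hs.trans ((min_le_left _ _).trans (min_le_left _ _))
  have hs2 : s ≤ εa / 2 := hs.trans ((min_le_left _ _).trans (min_le_right _ _))
  have hs3 : s ≤ εb := hs.trans ((min_le_right _ _).trans (min_le_left _ _))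
  have hs4 : s ≤ rb / (4 * M) := hs.trans ((min_le_right _ _).trans (min_le_right _ _))
  have hm1 : m ≤ 1 := by linarith
  have hl1 : l ≤ 1 := by linarith
  have hsm : s * m ≤ 1 / 2 := by nlinarith
  have hden : 0 < 1 - s * m := by linarith
  set α := s * l / (1 - s * m) with hα
  have hα0 : 0 ≤ α := div_nonneg (mul_nonneg hs0 hl) hden.le
  have hα2 : α ≤ 2 * s := by
    rw [hα, div_le_iff₀ hden]
    nlinarith [mul_nonneg hs0 hl]
  have hwa : ‖w - x‖ < ra := (mem_ball_iff_norm.1 hw).trans_le (min_le_left _ _)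
  have hwb : ‖w - x‖ < rb / 2 := (mem_ball_iff_norm.1 hw).trans_le (min_le_right _ _)
  have hw1 : w + α • (a - w) ∈ E := ha w ⟨mem_ball_iff_norm.2 hwa, hwE⟩ α hα0 (by linarith)
  have hw1b : w + α • (a - w) ∈ ball x rb := by
    rw [mem_ball_iff_norm]
    have h1 : ‖a - w‖ ≤ M := by
      calc ‖a - w‖ = ‖(a - x) - (w - x)‖ := by congr 1; module
        _ ≤ ‖a - x‖ + ‖w - x‖ := norm_sub_le _ _
        _ ≤ M := by rw [hM]; linarith
    have h2 : α * ‖a - w‖ ≤ rb / 2 := by
      have h3 : α ≤ rb / (2 * M) := by
        have : 2 * (rb / (4 * M)) = rb / (2 * M) := by field_simp; ring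
        linarith
      calc α * ‖a - w‖ ≤ rb / (2 * M) * M :=
            mul_le_mul h3 h1 (norm_nonneg _) (by positivity)
        _ = rb / 2 := by field_simp
    calc ‖w + α • (a - w) - x‖ = ‖(w - x) + α • (a - w)‖ := by congr 1; module
      _ ≤ ‖w - x‖ + ‖α • (a - w)‖ := norm_add_le _ _
      _ = ‖w - x‖ + α * ‖a - w‖ := by rw [norm_smul, Real.norm_of_nonneg hα0]
      _ < rb := by linarith
  have h := hb _ ⟨hw1b, hw1⟩ (s * m) (mul_nonneg hs0 hm) (by nlinarith)
  have e1 : (1 - s * m) * α = s * l := by rw [hα]; field_simp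
  have e2 : (1 - s * m) * (1 - α) = 1 - s := by
    have : (1 - s * m) * (1 - α) = (1 - s * m) - (1 - s * m) * α := by ring
    rw [this, e1]
    have : s * m + s * l = s := by rw [← mul_add, add_comm m l, hlm, mul_one]
    linarith
  have e3 : w + s • (l • a + m • b - w) = w + α • (a - w) + (s * m) • (b - (w + α • (a - w))) := by
    have : w + α • (a - w) + (s * m) • (b - (w + α • (a - w))) =
        ((1 - s * m) * (1 - α)) • w + ((1 - s * m) * α) • a + (s * m) • b := by module
    rw [this, e1, e2]
    module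
  rw [e3]
  exact h

end slide

end Q137.Star
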